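import Pool.Agent.R972.OP.Stm3
import Pool.Agent.Y506.RG.Fnl

/-!
# Order statistics of log-concave samples: statements (project OP3)

The law of `n` independent random variables with the log-concave density `h`, conditioned to be
increasing with respect to a partial order on the indices.
-/

set_option autoImplicit false

namespace Pool.Agent.R972.OP

open MeasureTheory Set Filter Topology
open scoped ENNReal InnerProductSpace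
open Pool.Agent.W695.KH (Eu EU EV VV Sm Pot Uu)
open Pool.Agent.Y506.RG (EW VW LC1 GD ND OB Adm pm)

/-! ### the weighted inequality on order polytopes -/

/-- rates -/
noncomputable def ch (N k : ℕ) : ℝ :=
  4 * (((k : ℝ) + 1) * ((N : ℝ) - 1 - k)) ^ 2 / (N : ℝ) ^ 2

/-- OP3-WCH: `W_k = √(k (N - k)) - √((k + 1)(N - 1 - k))`, `m = 0` -/
def S_WCH : Prop := ∀ N : ℕ, 0 < N → ∃ (W c : ℕ → ℝ) (m : ℝ), WC N W c m ∧
  ∀ k, k + 1 < N → c k ≤ ch N k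

section

variable {n : ℕ}

/-- `∑ 4 x_a² (1 - x_a)² (∂_a f)²` -/
noncomputable def GH (f : (Fin n → ℝ) → ℝ) (x : Fin n → ℝ) : ℝ :=
  ∑ a, 4 * x a ^ 2 * (1 - x a) ^ 2 * pd f a x ^ 2

end

/-- OP3-UPH: asymptotics with the rates `ch` (as `S_UPA`, `S_UPB`) -/
def S_UPH : Prop := ∀ (n : ℕ) (f : (Fin n → ℝ) → ℝ), ContDiff ℝ 1 f →
  ∃ (err : ℕ → ℝ) (C : ℝ), Tendsto err atTop (𝓝 0) ∧ 0 ≤ C ∧
  ∀ (N : ℕ) (g : Fin n → ℕ), 0 < N → (∀ a, g a < N) → Function.Injective g →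
  (∑ a, (if g a + 1 < N then
      ch N (g a) * (f (lp N (Function.update g a (g a + 1))) - f (lp N g)) ^ 2 else 0) +
    ∑ a, (if 0 < g a then
      ch N (g a - 1) * (f (lp N (Function.update g a (g a - 1))) - f (lp N g)) ^ 2 else 0) ≤
    2 * GH f (lp N g) + err N) ∧
  ∀ a b, g b = g a + 1 →
    ch N (g a) * (f (lp N (mv (g a) (g a + 1) g)) - f (lp N g)) ^ 2 ≤ C

/-- OP3-POH: the weighted Poincare inequality on order polytopes -/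
def S_POH : Prop := ∀ (n : ℕ) (R : Fin n → Fin n → Prop), (∀ a, ¬ R a a) →
  ∀ f : (Fin n → ℝ) → ℝ, ContDiff ℝ 1 f →
  (volume (OPp R)).toReal * (∫ x in OPp R, f x ^ 2) - (∫ x in OPp R, f x) ^ 2 ≤
    (volume (OPp R)).toReal * ∫ x in OPp R, GH f x

/-! ### samples -/

section

variable {n : ℕ}

/-- order cone -/
def Cn (R : Fin n → Fin n → Prop) : Set (Eu (Fin n)) := {x | ∀ i j, R i j → x i ≤ x j}

/-- density of the sample, conditioned on the order relations -/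
noncomputable def wR (R : Fin n → Fin n → Prop) (h : ℝ → ℝ) (x : Eu (Fin n)) : ℝ :=
  (Cn R).indicator (fun y => ∏ i, h (y i)) x

/-- truncation -/
noncomputable def trc (T : ℝ) (h : ℝ → ℝ) : ℝ → ℝ := (Icc (-T) T).indicator h

/-- mean -/
noncomputable def mh (h : ℝ → ℝ) : ℝ := (∫ s, s * h s) / ∫ s, h s

/-- variance -/
noncomputable def vh (h : ℝ → ℝ) : ℝ := (∫ s, s ^ 2 * h s) / (∫ s, h s) - mh h ^ 2

end

/-- OP3-TRU: Poincare inequality for truncated samples, from `S_POH` -/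
def S_TRU : Prop := ∀ (n : ℕ) (R : Fin n → Fin n → Prop) (h : ℝ → ℝ) (T B : ℝ), (∀ s, 0 < h s) →
  Continuous h → 0 < T → 0 ≤ B →
  (∀ t, |t| ≤ T → (∫ s in (-T)..t, h s) * (∫ s in t..T, h s) ≤
    B * h t * ∫ s in (-T)..T, h s) →
  ∀ g : Eu (Fin n) → ℝ, ContDiff ℝ 1 g →
  VW (wR R (trc T h)) g ≤ 4 * B ^ 2 * EW (wR R (trc T h)) fun x => ‖fderiv ℝ g x‖ ^ 2

/-- OP3-PGD: Poincare inequality for samples with smooth positive log-concave densities -/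
def S_PGD : Prop := ∃ K : ℝ, 1 ≤ K ∧ ∀ (n : ℕ) (R : Fin n → Fin n → Prop) (h : ℝ → ℝ), GD h →
  ∀ g : Eu (Fin n) → ℝ, ContDiff ℝ 1 g → (∃ B : ℝ, ∀ x, |g x| ≤ B) →
  (∃ L : ℝ, ∀ x, ‖fderiv ℝ g x‖ ≤ L) →
  VW (wR R h) g ≤ K * vh h * EW (wR R h) fun x => ‖fderiv ℝ g x‖ ^ 2

/-- OP3-RID: sums of convex ridge functions -/
def S_RID : Prop := ∀ (n : ℕ) (ι : Type) [Fintype ι] (v : ι → Eu (Fin n)) (V V' : ι → ℝ → ℝ)
  (A c : ℝ), 0 < A → (∀ i s, HasDerivAt (V i) (V' i s) s) → (∀ i, Monotone (V' i)) →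
  (∀ i s t, |V' i s - V' i t| ≤ A * |s - t|) →
  Integrable (fun x : Eu (Fin n) =>
    (1 + ‖x‖ ^ 2) * Real.exp (-(∑ i, V i ⟪v i, x⟫_ℝ + c))) →
  ∃ (b : Eu (Fin n) → Eu (Fin n)) (A' : ℝ), Pot (fun x => ∑ i, V i ⟪v i, x⟫_ℝ + c) b A'

/-- OP3-CHD: from Poincare to the `L¹` inequality, for densities -/
def S_CHD : Prop := ∀ (n : ℕ) (w : Eu (Fin n) → ℝ) (U : ℕ → Eu (Fin n) → ℝ)
  (b : ℕ → Eu (Fin n) → Eu (Fin n)) (A : ℕ → ℝ) (Cp : ℝ), Adm w → 0 < Cp →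
  (∀ j, Pot (U j) (b j) (A j)) → (∀ j, EU (U j) (fun _ => 1) = 1) →
  Tendsto (fun j => ∫ x, |Real.exp (-U j x) - w x / ∫ y, w y|) atTop (𝓝 0) →
  (∀ g : Eu (Fin n) → ℝ, ContDiff ℝ 1 g → (∃ B : ℝ, ∀ x, |g x| ≤ B) →
    (∃ L : ℝ, ∀ x, ‖fderiv ℝ g x‖ ≤ L) → VW w g ≤ Cp * EW w fun x => ‖fderiv ℝ g x‖ ^ 2) →
  ∀ (f : Eu (Fin n) → ℝ) (L M : ℝ), Sm f L M → (∀ x, |f x| ≤ 1 / 2) →
  VW w f ≤ 4 * Real.sqrt Cp * EW w fun x => ‖fderiv ℝ f x‖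

/-- OP3-IGD: the `L¹` inequality, smooth densities -/
def S_IGD : Prop := ∃ K : ℝ, 1 ≤ K ∧ ∀ (n : ℕ) (R : Fin n → Fin n → Prop) (h : ℝ → ℝ), GD h →
  0 < ∫ x, wR R h x → ∀ (f : Eu (Fin n) → ℝ) (L M : ℝ), Sm f L M → (∀ x, |f x| ≤ 1 / 2) →
  VW (wR R h) f ≤ K * Real.sqrt (vh h) * EW (wR R h) fun x => ‖fderiv ℝ f x‖

/-- OP3-ILC: the `L¹` inequality, all log-concave densities -/
def S_ILC : Prop := ∃ K : ℝ, 1 ≤ K ∧ ∀ (n : ℕ) (R : Fin n → Fin n → Prop) (h : ℝ → ℝ), LC1 h →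
  Integrable (fun s => (1 + s ^ 2) * h s) → 0 < ∫ s, h s → 0 < ∫ x, wR R h x →
  ∀ (f : Eu (Fin n) → ℝ) (L M : ℝ), Sm f L M → (∀ x, |f x| ≤ 1 / 2) →
  VW (wR R h) f ≤ K * Real.sqrt (vh h) * EW (wR R h) fun x => ‖fderiv ℝ f x‖

/-- OP3-MKA: sets, all levels, general measures (compare `S_mink`, `S_MINKM`) -/
def S_MKA : Prop := ∀ (κ : Type) [Fintype κ] (μ : Measure (Eu κ)) [IsProbabilityMeasure μ]
  (B : ℝ), 0 < B → (∀ (f : Eu κ → ℝ) (L M : ℝ), Sm f L M → (∀ x, |f x| ≤ 1 / 2) →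
    (∫ x, f x ^ 2 ∂μ) - (∫ x, f x ∂μ) ^ 2 ≤ B * ∫ x, ‖fderiv ℝ f x‖ ∂μ) →
  ∀ S : Set (Eu κ), MeasurableSet S → μ S * (1 - μ S) ≤ ENNReal.ofReal B *
    liminf (fun ε : ℝ => (μ (Metric.thickening ε S) - μ S) / ENNReal.ofReal ε) (𝓝[>] 0)

/-- OP3-SMG: integrals of symmetric functions over order cones -/
def S_SMG : Prop := ∀ (n : ℕ) (R : Fin n → Fin n → Prop), (∀ a b, R a b → R b a → a = b) →
  (∀ a b d, R a b → R b d → R a d) → ∃ t : ℝ, 0 < t ∧ ∀ G : Eu (Fin n) → ℝ, Integrable G →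
  (∀ (p : Equiv.Perm (Fin n)) (x y : Eu (Fin n)), (∀ i, y i = x (p i)) → G y = G x) →
  ∫ x in Cn R, G x = t * ∫ x, G x

/-- OP3-VSG: total mass, mean and variance of the sum of the sample -/
def S_VSG : Prop := ∀ (n : ℕ) (R : Fin n → Fin n → Prop), (∀ a b, R a b → R b a → a = b) →
  (∀ a b d, R a b → R b d → R a d) → ∀ h : ℝ → ℝ, (∀ s, 0 ≤ h s) → Measurable h →
  Integrable (fun s => (1 + s ^ 2) * h s) → 0 < ∫ s, h s → Adm (wR R h) ∧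
  VW (wR R h) (fun x => ∑ i, x i) = n * vh h

/-- OP3-KLS -/
def S_KLS3 : Prop := ∃ c : ℝ, 0 < c ∧ ∀ (n : ℕ) (R : Fin n → Fin n → Prop), 1 ≤ n →
  (∀ a b, R a b → R b a → a = b) → (∀ a b d, R a b → R b d → R a d) → ∀ h : ℝ → ℝ, LC1 h →
  Integrable (fun s => (1 + s ^ 2) * h s) → 0 < ∫ s, h s → ∀ s : ℝ, 0 < s →
  (∀ θ : Eu (Fin n), ‖θ‖ = 1 →
    ProbabilityTheory.variance (fun x => ⟪x, θ⟫_ℝ) (pm (wR R h)) ≤ s) →
  ∀ S : Set (Eu (Fin n)), MeasurableSet S →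
    ENNReal.ofReal (c / Real.sqrt s) * min (pm (wR R h) S) (1 - pm (wR R h) S) ≤
    liminf (fun ε : ℝ => (pm (wR R h) (Metric.thickening ε S) - pm (wR R h) S) /
      ENNReal.ofReal ε) (𝓝[>] 0)

end Pool.Agent.R972.OP
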