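import Mathlib

/-!
# Order polytopes: statements (project OP)

The uniform measure on the order polytope `{x ∈ [0,1]ⁿ | x_i ≤ x_j if R i j}` as the limit of the
uniform measures on the lattice placements `cfg N R`, for which the Poincare inequality is proved by
the path coupling of Bubley and Dyer.
-/

set_option autoImplicit false

namespace Pool.Agent.R972.OP

open MeasureTheory Set Filter Topology

section

variable {n : ℕ}

/-! ### placements of the labels `Fin n` on the positions `0, ..., N - 1` -/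

/-- exchange the contents of the positions `i` and `j` -/
def mv (i j : ℕ) (g : Fin n → ℕ) : Fin n → ℕ := fun a => Equiv.swap i j (g a)

open Classical in
/-- admissible placements -/
noncomputable def cfg (N : ℕ) (R : Fin n → Fin n → Prop) : Finset (Fin n → ℕ) :=
  (Fintype.piFinset fun _ => Finset.range N).filter
    fun g => Function.Injective g ∧ ∀ a b, R a b → g a < g b

open Classical in
/-- contribution of the exchange of `k` and `k + 1` to the generator -/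
noncomputable def tt (N : ℕ) (R : Fin n → Fin n → Prop) (c : ℕ → ℝ) (F : (Fin n → ℕ) → ℝ)
    (g : Fin n → ℕ) (k : ℕ) : ℝ :=
  if mv k (k + 1) g ∈ cfg N R then c k * (F (mv k (k + 1) g) - F g) else 0

/-- generator -/
noncomputable def LL (N : ℕ) (R : Fin n → Fin n → Prop) (c : ℕ → ℝ) (F : (Fin n → ℕ) → ℝ)
    (g : Fin n → ℕ) : ℝ := ∑ k ∈ Finset.range (N - 1), tt N R c F g k

open Classical in
/-- local energy -/
noncomputable def QQ (N : ℕ) (R : Fin n → Fin n → Prop) (c : ℕ → ℝ) (F : (Fin n → ℕ) → ℝ)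
    (g : Fin n → ℕ) : ℝ := ∑ k ∈ Finset.range (N - 1),
  if mv k (k + 1) g ∈ cfg N R then c k * (F (mv k (k + 1) g) - F g) ^ 2 else 0

/-! ### the limit -/

/-- order polytope -/
def OPp (R : Fin n → Fin n → Prop) : Set (Fin n → ℝ) :=
  {x | (∀ i, 0 ≤ x i ∧ x i ≤ 1) ∧ ∀ i j, R i j → x i ≤ x j}

/-- lattice points of the cube -/
noncomputable def lp (N : ℕ) (g : Fin n → ℕ) : Fin n → ℝ := fun a => (g a : ℝ) / N

/-- number of ordered pairs of labels at neighbouring positions -/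
noncomputable def adj (g : Fin n → ℕ) : ℕ :=
  (Finset.univ.filter fun p : Fin n × Fin n => g p.2 = g p.1 + 1).card

/-- partial derivative -/
noncomputable def pd (f : (Fin n → ℝ) → ℝ) (a : Fin n) (x : Fin n → ℝ) : ℝ :=
  fderiv ℝ f x (Pi.single a 1)

/-- `∑ x_a (1 - x_a) (∂_a f)²` -/
noncomputable def GG (f : (Fin n → ℝ) → ℝ) (x : Fin n → ℝ) : ℝ :=
  ∑ a, x a * (1 - x a) * pd f a x ^ 2

end

/-- increasing `W` and rates `c` with `c_j (W_{j+1} - W_j) - c_{j-1} (W_j - W_{j-1}) = m - W_j` -/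
structure WC (N : ℕ) (W c : ℕ → ℝ) (m : ℝ) : Prop where
  mono : ∀ k, k + 1 < N → W k < W (k + 1)
  nonneg : ∀ k, k + 1 < N → 0 ≤ c k
  eq : ∀ j, j < N → (if j + 1 < N then c j * (W (j + 1) - W j) else 0) -
    (if 0 < j then c (j - 1) * (W j - W (j - 1)) else 0) = m - W j

/-- the rates for `W_k = k`, `m = (N - 1) / 2` -/
noncomputable def cc (N k : ℕ) : ℝ := ((k : ℝ) + 1) * ((N : ℝ) - 1 - k) / 2

/-! ### A: lattice inequality -/

/-- OP-PT: coupling, one exchange -/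
def S_PT : Prop := ∀ (n N : ℕ) (R : Fin n → Fin n → Prop) (W c : ℕ → ℝ) (F : (Fin n → ℕ) → ℝ)
  (M : ℝ), (∀ k, k + 1 < N → W k < W (k + 1)) → (∀ k, k + 1 < N → 0 ≤ c k) → 0 ≤ M →
  (∀ g ∈ cfg N R, ∀ i j, i < j → j < N → mv i j g ∈ cfg N R →
    |F (mv i j g) - F g| ≤ M * (W j - W i)) →
  ∀ s ∈ cfg N R, ∀ i j, i < j → j < N → mv i j s ∈ cfg N R →
  F (mv i j s) - F s = M * (W j - W i) → ∀ k, k + 1 < N →
  tt N R c F (mv i j s) k - tt N R c F s k ≤ M * (c k * (W (k + 1) - W k)) *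
    ((if k + 1 = i then 1 else 0) + (if k = j then 1 else 0) - (if k = i then 1 else 0) -
      (if k + 1 = j then 1 else 0))

/-- OP-CON: eigenvalues of nonconstant eigenfunctions are at least one -/
def S_CON : Prop := ∀ (n N : ℕ) (R : Fin n → Fin n → Prop) (W c : ℕ → ℝ) (m lam : ℝ)
  (F : (Fin n → ℕ) → ℝ), WC N W c m → (∀ g ∈ cfg N R, LL N R c F g = -lam * F g) →
  (∃ g ∈ cfg N R, ∃ k, k + 1 < N ∧ mv k (k + 1) g ∈ cfg N R ∧ F (mv k (k + 1) g) ≠ F g) → 1 ≤ lam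

/-- OP-CONN: connectivity -/
def S_CONN : Prop := ∀ (n N : ℕ) (R : Fin n → Fin n → Prop) (F : (Fin n → ℕ) → ℝ),
  (∀ g ∈ cfg N R, ∀ k, k + 1 < N → mv k (k + 1) g ∈ cfg N R → F (mv k (k + 1) g) = F g) →
  ∀ g ∈ cfg N R, ∀ h ∈ cfg N R, F g = F h

/-- OP-LA: from eigenfunctions to the Poincare inequality, on a finite set -/
def S_LA : Prop := ∀ (ι : Type) [Fintype ι] (w : ι → ι → ℝ), (∀ x y, w x y = w y x) →
  (∀ (lam : ℝ) (F : ι → ℝ), (∀ x, ∑ y, w x y * (F y - F x) = -lam * F x) →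
    (∃ x y, F x ≠ F y) → 1 ≤ lam) →
  ∀ F : ι → ℝ, (Fintype.card ι : ℝ) * ∑ x, F x ^ 2 - (∑ x, F x) ^ 2 ≤
    Fintype.card ι * (1 / 2 * ∑ x, ∑ y, w x y * (F y - F x) ^ 2)

/-- OP-LAT: the lattice inequality -/
def S_LAT : Prop := ∀ (n N : ℕ) (R : Fin n → Fin n → Prop) (W c : ℕ → ℝ) (m : ℝ), WC N W c m →
  ∀ F : (Fin n → ℕ) → ℝ, ((cfg N R).card : ℝ) * ∑ g ∈ cfg N R, F g ^ 2 -
    (∑ g ∈ cfg N R, F g) ^ 2 ≤ (cfg N R).card * (1 / 2 * ∑ g ∈ cfg N R, QQ N R c F g)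

/-! ### B: the limit -/

/-- OP-RS: Riemann sums -/
def S_RS : Prop := ∀ (n : ℕ) (R : Fin n → Fin n → Prop), (∀ a, ¬ R a a) →
  ∀ G : (Fin n → ℝ) → ℝ, Continuous G →
  Tendsto (fun N : ℕ => (∑ g ∈ cfg N R, G (lp N g)) / (N : ℝ) ^ n) atTop
    (𝓝 (∫ x in OPp R, G x))

/-- OP-ADJ: few placements have labels at neighbouring positions -/
def S_ADJ : Prop := ∀ (n : ℕ) (R : Fin n → Fin n → Prop),
  Tendsto (fun N : ℕ => (∑ g ∈ cfg N R, (adj g : ℝ)) / (N : ℝ) ^ n) atTop (𝓝 0)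

/-- OP-UPC: the energy of a placement, by the kinds of exchanges -/
def S_UPC : Prop := ∀ (n N : ℕ) (R : Fin n → Fin n → Prop) (c : ℕ → ℝ) (F : (Fin n → ℕ) → ℝ),
  (∀ k, k + 1 < N → 0 ≤ c k) → ∀ g ∈ cfg N R, QQ N R c F g ≤
    ∑ a, (if g a + 1 < N then
      c (g a) * (F (Function.update g a (g a + 1)) - F g) ^ 2 else 0) +
    ∑ a, (if 0 < g a then
      c (g a - 1) * (F (Function.update g a (g a - 1)) - F g) ^ 2 else 0) +
    ∑ p ∈ Finset.univ.filter (fun p : Fin n × Fin n => g p.2 = g p.1 + 1),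
      c (g p.1) * (F (mv (g p.1) (g p.1 + 1) g) - F g) ^ 2

/-- OP-UPA: asymptotics of the right-hand side of `S_UPC` -/
def S_UPA : Prop := ∀ (n : ℕ) (f : (Fin n → ℝ) → ℝ), ContDiff ℝ 1 f →
  ∃ (err : ℕ → ℝ) (C : ℝ), Tendsto err atTop (𝓝 0) ∧ 0 ≤ C ∧
  ∀ (N : ℕ) (g : Fin n → ℕ), 0 < N → (∀ a, g a < N) → Function.Injective g →
  (∑ a, (if g a + 1 < N then
      cc N (g a) * (f (lp N (Function.update g a (g a + 1))) - f (lp N g)) ^ 2 else 0) +
    ∑ a, (if 0 < g a then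
      cc N (g a - 1) * (f (lp N (Function.update g a (g a - 1))) - f (lp N g)) ^ 2 else 0) ≤
    GG f (lp N g) + err N) ∧
  ∀ a b, g b = g a + 1 →
    cc N (g a) * (f (lp N (mv (g a) (g a + 1) g)) - f (lp N g)) ^ 2 ≤ C

/-- OP-POI: the Poincare inequality on order polytopes -/
def S_POI : Prop := ∀ (n : ℕ) (R : Fin n → Fin n → Prop), (∀ a, ¬ R a a) →
  ∀ f : (Fin n → ℝ) → ℝ, ContDiff ℝ 1 f →
  (volume (OPp R)).toReal * (∫ x in OPp R, f x ^ 2) - (∫ x in OPp R, f x) ^ 2 ≤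
    (volume (OPp R)).toReal * (1 / 2 * ∫ x in OPp R, GG f x)

/-! ### C: symmetric functions -/

/-- OP-SYM: symmetric functions have the same means over all order polytopes -/
def S_SYM : Prop := ∀ (n : ℕ) (R : Fin n → Fin n → Prop) (G : (Fin n → ℝ) → ℝ), Continuous G →
  (∀ (p : Equiv.Perm (Fin n)) (x : Fin n → ℝ), G (fun i => x (p i)) = G x) →
  ∫ x in OPp R, G x = (volume (OPp R)).toReal * ∫ x in OPp (fun _ _ : Fin n => False), G x

/-- OP-MOM: moments of the coordinate sum on the cube -/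
def S_MOM : Prop := ∀ n : ℕ,
  (∫ x in OPp (fun _ _ : Fin n => False), ∑ i, x i = (n : ℝ) / 2) ∧
  (∫ x in OPp (fun _ _ : Fin n => False), (∑ i, x i) ^ 2 = (n : ℝ) / 12 + (n : ℝ) ^ 2 / 4)

end Pool.Agent.R972.OP
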