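import Pool.Agent.R972.OP.Stm

set_option autoImplicit false

/-! OP-LA: from eigenfunctions to the Poincare inequality on a finite set. -/

namespace Pool.Agent.R972.OP

open Finset

namespace LaAux

variable {ι : Type} [Fintype ι]

/-- the generator, with sign -/
def Aop (w : ι → ι → ℝ) (F : ι → ℝ) (x : ι) : ℝ := - ∑ y, w x y * (F y - F x)

lemma form (w : ι → ι → ℝ) (hw : ∀ x y, w x y = w y x) (F G : ι → ℝ) :
    ∑ x, F x * Aop w G x = 1 / 2 * ∑ x, ∑ y, w x y * ((F y - F x) * (G y - G x)) := by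
  have h1 : ∑ x, F x * Aop w G x = ∑ x, ∑ y, w x y * (-(F x) * (G y - G x)) := by
    refine sum_congr rfl fun x _ => ?_
    unfold Aop
    rw [mul_neg, ← neg_mul, mul_sum]
    refine sum_congr rfl fun y _ => ?_
    ring
  have h2 : ∑ x, ∑ y, w x y * (-(F x) * (G y - G x)) =
      ∑ x, ∑ y, w x y * (F y * (G y - G x)) := by
    rw [sum_comm]
    refine sum_congr rfl fun x _ => sum_congr rfl fun y _ => ?_
    rw [hw y x]
    ring
  have h3 : ∑ x, ∑ y, w x y * ((F y - F x) * (G y - G x)) =
      ∑ x, ∑ y, w x y * (F y * (G y - G x)) + ∑ x, ∑ y, w x y * (-(F x) * (G y - G x)) := by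
    rw [← sum_add_distrib]
    refine sum_congr rfl fun x _ => ?_
    rw [← sum_add_distrib]
    refine sum_congr rfl fun y _ => ?_
    ring
  rw [h3, ← h2, h1]
  ring

lemma selfadj (w : ι → ι → ℝ) (hw : ∀ x y, w x y = w y x) (F G : ι → ℝ) :
    ∑ x, F x * Aop w G x = ∑ x, Aop w F x * G x := by
  have h : ∑ x, Aop w F x * G x = ∑ x, G x * Aop w F x :=
    sum_congr rfl fun x _ => mul_comm _ _
  rw [h, form w hw, form w hw]
  congr 1
  refine sum_congr rfl fun x _ => sum_congr rfl fun y _ => ?_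
  ring

lemma meanzero (w : ι → ι → ℝ) (hw : ∀ x y, w x y = w y x)
    (hspec : ∀ (lam : ℝ) (F : ι → ℝ), (∀ x, ∑ y, w x y * (F y - F x) = -lam * F x) →
      (∃ x y, F x ≠ F y) → 1 ≤ lam) (G : ι → ℝ) (hG : ∑ x, G x = 0) :
    ∑ x, G x ^ 2 ≤ ∑ x, G x * Aop w G x := by
  classical
  set A : Matrix ι ι ℝ := Matrix.of fun x y => (if x = y then ∑ z, w x z else 0) - w x y with hA
  have hAh : A.IsHermitian := by
    refine Matrix.IsHermitian.ext fun x y => ?_
    simp only [hA, Matrix.of_apply, star_trivial]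
    rw [hw y x]
    congr 1
    by_cases h : x = y
    · subst h; rfl
    · rw [if_neg h, if_neg (Ne.symm h)]
  have hmul : ∀ (F : ι → ℝ) (x : ι), (A.mulVec F) x = Aop w F x := by
    intro F x
    simp only [Matrix.mulVec, dotProduct, hA, Matrix.of_apply, Aop]
    have h1 : ∀ y, ((if x = y then ∑ z, w x z else 0) - w x y) * F y =
        (if x = y then (∑ z, w x z) * F x else 0) - w x y * F y := by
      intro y
      by_cases h : x = y
      · subst h; simp; ring
      · simp [h]
    simp only [h1, sum_sub_distrib, sum_ite_eq, mem_univ, if_true]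
    rw [sum_mul, ← sum_sub_distrib, ← sum_neg_distrib]
    refine sum_congr rfl fun y _ => ?_
    ring
  set b := hAh.eigenvectorBasis with hb
  set e : ι → ι → ℝ := fun i => WithLp.ofLp (b i) with he
  have heig : ∀ i x, Aop w (e i) x = hAh.eigenvalues i * e i x := by
    intro i x
    have h := congrFun (hAh.mulVec_eigenvectorBasis i) x
    rw [← hmul]
    exact h
  have hinner : ∀ (i : ι) (H : ι → ℝ), inner ℝ (b i) (WithLp.toLp 2 H) = ∑ x, e i x * H x := by
    intro i H
    rw [PiLp.inner_apply]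
    refine sum_congr rfl fun x _ => ?_
    simp [he, mul_comm]
  have hinner' : ∀ (i : ι) (H : ι → ℝ), inner ℝ (WithLp.toLp 2 H) (b i) = ∑ x, e i x * H x := by
    intro i H
    rw [real_inner_comm]; exact hinner i H
  have hip : ∀ (i : ι) (H : ι → ℝ), ∑ x, e i x * Aop w H x =
      hAh.eigenvalues i * ∑ x, e i x * H x := by
    intro i H
    rw [selfadj w hw, mul_sum]
    refine sum_congr rfl fun x _ => ?_
    rw [heig]; ring
  have hpars : ∀ (H K : ι → ℝ), ∑ i, (∑ x, e i x * H x) * (∑ x, e i x * K x) =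
      ∑ x, H x * K x := by
    intro H K
    have h := b.sum_inner_mul_inner (WithLp.toLp 2 H) (WithLp.toLp 2 K)
    simp only [hinner, hinner'] at h
    rw [h, PiLp.inner_apply]
    refine sum_congr rfl fun x _ => ?_
    simp [mul_comm]
  have h1 : ∑ x, G x ^ 2 = ∑ i, (∑ x, e i x * G x) * (∑ x, e i x * G x) := by
    rw [hpars]
    exact sum_congr rfl fun x _ => sq _
  have h2 : ∑ x, G x * Aop w G x =
      ∑ i, (∑ x, e i x * G x) * (hAh.eigenvalues i * ∑ x, e i x * G x) := by
    rw [← hpars]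
    exact sum_congr rfl fun i _ => by rw [hip]
  rw [h1, h2]
  refine sum_le_sum fun i _ => ?_
  by_cases hc : ∃ x y, e i x ≠ e i y
  · have hl : 1 ≤ hAh.eigenvalues i := by
      refine hspec _ (e i) (fun x => ?_) hc
      have := heig i x
      unfold Aop at this
      linarith
    have h3 : 0 ≤ (∑ x, e i x * G x) ^ 2 := sq_nonneg _
    nlinarith
  · push Not at hc
    have h3 : ∑ x, e i x * G x = 0 := by
      by_cases hne : Nonempty ι
      · obtain ⟨x0⟩ := hne
        have : ∑ x, e i x * G x = ∑ x, e i x0 * G x :=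
          sum_congr rfl fun x _ => by rw [hc x x0]
        rw [this, ← mul_sum, hG, mul_zero]
      · haveI := not_nonempty_iff.mp hne
        simp
    rw [h3]; simp

end LaAux

open LaAux in
theorem la : S_LA := by
  intro ι _ w hw hspec F
  by_cases hne : Nonempty ι
  swap
  · haveI := not_nonempty_iff.mp hne
    simp
  have hcard : (0 : ℝ) < Fintype.card ι := by exact_mod_cast Fintype.card_pos
  set c : ℝ := (∑ x, F x) / Fintype.card ι with hc
  have hcs : (Fintype.card ι : ℝ) * c = ∑ x, F x := by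
    rw [hc]; field_simp
  set G : ι → ℝ := fun x => F x - c with hGdef
  have hG : ∑ x, G x = 0 := by
    simp only [hGdef, sum_sub_distrib, sum_const, card_univ, nsmul_eq_mul, hcs, sub_self]
  have h := meanzero w hw hspec G hG
  rw [form w hw] at h
  have h1 : ∑ x, G x ^ 2 = ∑ x, F x ^ 2 - (Fintype.card ι : ℝ) * c ^ 2 := by
    have : ∀ x, G x ^ 2 = F x ^ 2 - 2 * c * F x + c ^ 2 := by
      intro x; simp only [hGdef]; ring
    simp only [this, sum_add_distrib, sum_sub_distrib, sum_const, card_univ, nsmul_eq_mul,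
      ← mul_sum, ← hcs]
    ring
  have h2 : ∑ x, ∑ y, w x y * ((G y - G x) * (G y - G x)) =
      ∑ x, ∑ y, w x y * (F y - F x) ^ 2 := by
    refine sum_congr rfl fun x _ => sum_congr rfl fun y _ => ?_
    simp only [hGdef]; ring
  rw [h1, h2] at h
  have h3 : (Fintype.card ι : ℝ) * ∑ x, F x ^ 2 - (∑ x, F x) ^ 2 =
      (Fintype.card ι : ℝ) * (∑ x, F x ^ 2 - (Fintype.card ι : ℝ) * c ^ 2) := by
    rw [← hcs]; ring
  rw [h3]
  exact mul_le_mul_of_nonneg_left h hcard.le

end Pool.Agent.R972.OP
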