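import Pool.Agent.R972.OP.Stm

/-! OP-UPC: the energy of a placement, by the kinds of exchanges. -/

set_option autoImplicit false

namespace Pool.Agent.R972.OP

open MeasureTheory Set Filter Topology

namespace UPC394

lemma sum_ite_le {s : Finset ℕ} {φ : ℕ → Prop} [DecidablePred φ] {x : ℝ} (hx : 0 ≤ x)
    (h : ∀ i ∈ s, ∀ j ∈ s, φ i → φ j → i = j) : ∑ k ∈ s, (if φ k then x else 0) ≤ x := by
  rw [← Finset.sum_filter, Finset.sum_const, nsmul_eq_mul]
  have h1 : (s.filter φ).card ≤ 1 := by
    rw [Finset.card_le_one]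
    intro i hi j hj
    rw [Finset.mem_filter] at hi hj
    exact h i hi.1 j hj.1 hi.2 hj.2
  have h2 : ((s.filter φ).card : ℝ) ≤ 1 := by exact_mod_cast h1
  calc ((s.filter φ).card : ℝ) * x ≤ 1 * x := mul_le_mul_of_nonneg_right h2 hx
    _ = x := one_mul x

lemma mv_up {n : ℕ} {g : Fin n → ℕ} (hinj : Function.Injective g) {k : ℕ} {a : Fin n}
    (ha : g a = k) (hb : ∀ b, g b ≠ k + 1) : mv k (k + 1) g = Function.update g a (g a + 1) := by
  funext x
  unfold mv
  by_cases hx : x = a
  · subst hx
    rw [ha, Equiv.swap_apply_left, Function.update_self]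
  · have h1 : g x ≠ k := fun h => hx (hinj (h.trans ha.symm))
    rw [Equiv.swap_apply_of_ne_of_ne h1 (hb x), Function.update_of_ne hx]

lemma mv_down {n : ℕ} {g : Fin n → ℕ} (hinj : Function.Injective g) {k : ℕ} {a : Fin n}
    (ha : g a = k + 1) (hb : ∀ b, g b ≠ k) : mv k (k + 1) g = Function.update g a (g a - 1) := by
  funext x
  unfold mv
  by_cases hx : x = a
  · subst hx
    rw [ha, Equiv.swap_apply_right, Function.update_self]
    rfl
  · have h1 : g x ≠ k + 1 := fun h => hx (hinj (h.trans ha.symm))
    rw [Equiv.swap_apply_of_ne_of_ne (hb x) h1, Function.update_of_ne hx]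

lemma mv_id {n : ℕ} {g : Fin n → ℕ} {k : ℕ} (ha : ∀ b, g b ≠ k) (hb : ∀ b, g b ≠ k + 1) :
    mv k (k + 1) g = g := by
  funext x
  unfold mv
  rw [Equiv.swap_apply_of_ne_of_ne (ha x) (hb x)]

end UPC394

open UPC394

theorem pieceUPC : S_UPC := by
  classical
  intro n N R c F hc g hg
  have hg' := hg
  unfold cfg at hg'
  rw [Finset.mem_filter, Fintype.mem_piFinset] at hg'
  have hgN : ∀ a, g a < N := fun a => Finset.mem_range.1 (hg'.1 a)
  have hinj : Function.Injective g := hg'.2.1
  set A : Fin n → ℝ := fun a => if g a + 1 < N then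
    c (g a) * (F (Function.update g a (g a + 1)) - F g) ^ 2 else 0 with hAdef
  set B : Fin n → ℝ := fun a => if 0 < g a then
    c (g a - 1) * (F (Function.update g a (g a - 1)) - F g) ^ 2 else 0 with hBdef
  set C : Fin n × Fin n → ℝ := fun p =>
    c (g p.1) * (F (mv (g p.1) (g p.1 + 1) g) - F g) ^ 2 with hCdef
  have hA : ∀ a, 0 ≤ A a := by
    intro a
    simp only [hAdef]
    split_ifs with h
    · exact mul_nonneg (hc _ h) (sq_nonneg _)
    · exact le_rfl
  have hB : ∀ a, 0 ≤ B a := by
    intro a
    simp only [hBdef]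
    split_ifs with h
    · refine mul_nonneg (hc _ ?_) (sq_nonneg _)
      have := hgN a
      omega
    · exact le_rfl
  have hC : ∀ p : Fin n × Fin n, g p.2 = g p.1 + 1 → 0 ≤ C p := by
    intro p hp
    refine mul_nonneg (hc _ ?_) (sq_nonneg _)
    rw [← hp]
    exact hgN _
  have key : ∀ k ∈ Finset.range (N - 1),
      (if mv k (k + 1) g ∈ cfg N R then c k * (F (mv k (k + 1) g) - F g) ^ 2 else 0) ≤
      (∑ a, if g a = k then A a else 0) + (∑ a, if g a = k + 1 then B a else 0) +
      ∑ p ∈ Finset.univ.filter (fun p : Fin n × Fin n => g p.2 = g p.1 + 1),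
        if g p.1 = k then C p else 0 := by
    intro k hk
    have hk' : k + 1 < N := by
      have := Finset.mem_range.1 hk
      omega
    have n1 : 0 ≤ ∑ a, if g a = k then A a else 0 :=
      Finset.sum_nonneg fun a _ => by split_ifs; exacts [hA a, le_rfl]
    have n2 : 0 ≤ ∑ a, if g a = k + 1 then B a else 0 :=
      Finset.sum_nonneg fun a _ => by split_ifs; exacts [hB a, le_rfl]
    have n3 : 0 ≤ ∑ p ∈ Finset.univ.filter (fun p : Fin n × Fin n => g p.2 = g p.1 + 1),
        if g p.1 = k then C p else 0 :=
      Finset.sum_nonneg fun p hp => by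
        split_ifs
        · exact hC p (Finset.mem_filter.1 hp).2
        · exact le_rfl
    have hq : (if mv k (k + 1) g ∈ cfg N R then c k * (F (mv k (k + 1) g) - F g) ^ 2 else 0) ≤
        c k * (F (mv k (k + 1) g) - F g) ^ 2 := by
      split_ifs
      · exact le_rfl
      · exact mul_nonneg (hc _ hk') (sq_nonneg _)
    refine hq.trans ?_
    by_cases h1 : ∃ a, g a = k
    · obtain ⟨a, ha⟩ := h1
      by_cases h2 : ∃ b, g b = k + 1
      · obtain ⟨b, hb⟩ := h2
        have h3 : (if g (a, b).1 = k then C (a, b) else 0) ≤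
            ∑ p ∈ Finset.univ.filter (fun p : Fin n × Fin n => g p.2 = g p.1 + 1),
              if g p.1 = k then C p else 0 := by
          refine Finset.single_le_sum (f := fun p : Fin n × Fin n => if g p.1 = k then C p else 0)
            (fun p hp => ?_) (Finset.mem_filter.2 ⟨Finset.mem_univ (a, b), ?_⟩)
          · beta_reduce
            split_ifs
            · exact hC p (Finset.mem_filter.1 hp).2
            · exact le_rfl
          · simp only [ha, hb]
        rw [if_pos ha] at h3
        simp only [hCdef, ha] at h3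
        simp only [hCdef] at n1 n2 h3 ⊢
        linarith
      · push Not at h2
        have h3 : (if g a = k then A a else 0) ≤ ∑ a, if g a = k then A a else 0 :=
          Finset.single_le_sum (f := fun a => if g a = k then A a else 0)
            (fun x _ => by beta_reduce; split_ifs; exacts [hA x, le_rfl]) (Finset.mem_univ a)
        rw [if_pos ha] at h3
        have h4 : A a = c k * (F (mv k (k + 1) g) - F g) ^ 2 := by
          rw [mv_up hinj ha h2]
          simp only [hAdef]
          rw [if_pos (by rw [ha]; exact hk'), ha]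
        linarith
    · push Not at h1
      by_cases h2 : ∃ b, g b = k + 1
      · obtain ⟨b, hb⟩ := h2
        have h3 : (if g b = k + 1 then B b else 0) ≤ ∑ a, if g a = k + 1 then B a else 0 :=
          Finset.single_le_sum (f := fun a => if g a = k + 1 then B a else 0)
            (fun x _ => by beta_reduce; split_ifs; exacts [hB x, le_rfl]) (Finset.mem_univ b)
        rw [if_pos hb] at h3
        have h4 : B b = c k * (F (mv k (k + 1) g) - F g) ^ 2 := by
          rw [mv_down hinj hb h1]
          simp only [hBdef]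
          rw [if_pos (by rw [hb]; omega), hb, Nat.add_sub_cancel]
        linarith
      · push Not at h2
        rw [mv_id h1 h2, sub_self]
        have : c k * (0 : ℝ) ^ 2 = 0 := by ring
        rw [this]
        linarith
  have h1 := Finset.sum_le_sum key
  have e1 : ∑ k ∈ Finset.range (N - 1), ∑ a, (if g a = k then A a else 0) ≤ ∑ a, A a := by
    rw [Finset.sum_comm]
    exact Finset.sum_le_sum fun a _ => sum_ite_le (hA a) fun i _ j _ hi hj => hi.symm.trans hj
  have e2 : ∑ k ∈ Finset.range (N - 1), ∑ a, (if g a = k + 1 then B a else 0) ≤ ∑ a, B a := by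
    rw [Finset.sum_comm]
    exact Finset.sum_le_sum fun a _ => sum_ite_le (hB a) fun i _ j _ hi hj => by omega
  have e3 : ∑ k ∈ Finset.range (N - 1),
      ∑ p ∈ Finset.univ.filter (fun p : Fin n × Fin n => g p.2 = g p.1 + 1),
        (if g p.1 = k then C p else 0) ≤
      ∑ p ∈ Finset.univ.filter (fun p : Fin n × Fin n => g p.2 = g p.1 + 1), C p := by
    rw [Finset.sum_comm]
    exact Finset.sum_le_sum fun p hp => sum_ite_le (hC p (Finset.mem_filter.1 hp).2)
      fun i _ j _ hi hj => hi.symm.trans hj
  rw [Finset.sum_add_distrib, Finset.sum_add_distrib] at h1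
  unfold QQ
  linarith

end Pool.Agent.R972.OP
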