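import Pool.Agent.H152R2.OP.Poi
import Pool.Agent.R364.OP.UPA
import Pool.Agent.R364.OP.RS
import Pool.Agent.R441.OPTR
import Pool.Agent.R560.OP.OpCon
import Pool.Agent.R515.OP.WCB
import Pool.Agent.R609.OP.Geo
import Pool.Agent.R780.OP.Pt
import Pool.Agent.R928.OPLat
import Pool.Agent.R372.OP.MOM
import Pool.Agent.R372.OP.POIE
import Pool.Agent.R372.OP.SYM
import Pool.Agent.R372.OP.ADJ
import Pool.Agent.R711.POBE
import Pool.Agent.R874.OP.Pob
import Pool.Agent.R874.OP.Upb
import Pool.Agent.R574.OP.Conn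
import Pool.Agent.R972.OP.La
import Pool.Agent.R972.OP.UPC

/-!
# Order polytopes: the Poincare inequalities

Parts by helpers 780, 560, 574, 358, 928, 364, 372, 394, 152, 441, 609, 515, 874, 711.
-/

set_option autoImplicit false

namespace Pool.Agent.R972.OP

theorem lat_all : S_LAT :=
  lat (Pool.Agent.R560.OP.con Pool.Agent.R780.OP.t_PT) Pool.Agent.R574.OPConn.conn la

theorem poi_all : S_POI := Pool.Agent.H152R2.OP.poi lat_all Pool.Agent.R364.OP.rs
  Pool.Agent.R372.OP.ADJ.main pieceUPC Pool.Agent.R364.OP.upa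

theorem poie_all : S_POIE := Pool.Agent.R372.OP.POIE.poie poi_all Pool.Agent.R441.OPTR.op_tr

theorem pob_all : S_POB := Pool.Agent.R874.OP.Pob.pob lat_all Pool.Agent.R364.OP.rs
  Pool.Agent.R372.OP.ADJ.main pieceUPC Pool.Agent.R874.OP.upb Pool.Agent.R515.OP.wcb

theorem pobe_all : S_POBE := Pool.Agent.R711.POBE.pobe pob_all Pool.Agent.R441.OPTR.op_tr

theorem vs_all : S_VS := Pool.Agent.R372.OP.POIE.vs Pool.Agent.R372.OP.SYM.main
  Pool.Agent.R372.OP.MOM.main Pool.Agent.R441.OPTR.op_tr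

theorem geo_all : S_GEO := Pool.Agent.R609.OP.geo

theorem tr_all : S_TR := Pool.Agent.R441.OPTR.op_tr

end Pool.Agent.R972.OP
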