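import Pool.Agent.R972.OP.All
import Pool.Agent.R462.OP.Fin2
import Pool.Agent.R567.OP2.MKC
import Pool.Agent.R310.OP2.Body
import Pool.Agent.R310.OP2.Vol
import Pool.Agent.R860.OP.Gap
import Pool.Agent.R819.OP2.Cmb
import Pool.Agent.R656.OP2.Core

/-!
# Cheeger's inequality on order polytopes, and the conductance of the simplex walk

Parts by helpers 656, 310, 860, 819, 567, 462.
-/

set_option autoImplicit false

namespace Pool.Agent.R972.OP

open MeasureTheory Set Filter Topology
open scoped ENNReal InnerProductSpace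
open Pool.Agent.W695.KH (Eu EU EV VV Sm Pot Uu)

theorem all_of (h : S_BODL) (hp : S_POBE) (hg : S_GEO) : S_ALL := by
  intro n R hv μ hμ S hS
  obtain ⟨hc, hco, -⟩ := hg n R
  have hpi : 0 < Real.pi := Real.pi_pos
  refine Pool.Agent.W695.KH.mink (Fin n) (OE R) hc hco hv (4 / Real.pi) (by positivity) ?_ μ hμ S hS
  intro f L M hf hb
  have h1 := h (Fin n) (OE R) hc hco hv (1 / Real.pi ^ 2) (by positivity)
    (fun v hv1 => hp n R hv v hv1) f L M hf hb
  have h2 : 4 * Real.sqrt (1 / Real.pi ^ 2) = 4 / Real.pi := by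
    rw [Real.sqrt_div zero_le_one, Real.sqrt_one, Real.sqrt_sq hpi.le]
    ring
  rwa [h2] at h1

theorem bodl_all : S_BODL := Pool.Agent.R310.OP2.Body.bodl Pool.Agent.R656.OP2.t_corl

theorem all_all : S_ALL := all_of bodl_all pobe_all geo_all

theorem mkc_all : S_MKC := Pool.Agent.R567.OP2.mkc Pool.Agent.R860.OP.gap1
  Pool.Agent.R860.OP.gap2 Pool.Agent.R819.OP2.t_CMB Pool.Agent.R310.OP2.Vol.main

theorem fin_all : S_FIN := Pool.Agent.R462.OP.fin2 all_all mkc_all Pool.Agent.R310.OP2.Vol.main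
  tr_all geo_all

end Pool.Agent.R972.OP
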