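import Pool.Agent.R972.OP.Stm3
import Pool.Agent.Y211.FF.Half

/-!
# Order polytopes: isoperimetry and covariance
-/

set_option autoImplicit false

namespace Pool.Agent.R972.OP

open MeasureTheory Set Filter Topology
open scoped ENNReal InnerProductSpace
open Pool.Agent.W695.KH (Eu EV VV Sm)

variable {n : ℕ}

/-- uniform probability measure -/
noncomputable def un (K : Set (Eu (Fin n))) : Measure (Eu (Fin n)) :=
  (volume K)⁻¹ • volume.restrict K

theorem vpos {K : Set (Eu (Fin n))} (hi : (interior K).Nonempty) : 0 < volume K :=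
  lt_of_lt_of_le (isOpen_interior.measure_pos volume hi) (measure_mono interior_subset)

theorem un_prob {K : Set (Eu (Fin n))} (hc : IsCompact K) (hv : 0 < volume K) :
    IsProbabilityMeasure (un K) := by
  refine ⟨?_⟩
  unfold un
  rw [Measure.smul_apply, Measure.restrict_apply_univ, smul_eq_mul]
  exact ENNReal.inv_mul_cancel hv.ne' hc.measure_lt_top.ne

theorem un_int (K : Set (Eu (Fin n))) (v : Eu (Fin n) → ℝ) : ∫ x, v x ∂(un K) = EV K v := by
  unfold un EV
  rw [integral_smul_measure, ENNReal.toReal_inv, smul_eq_mul, inv_mul_eq_div]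

theorem un_integrable {K : Set (Eu (Fin n))} (hc : IsCompact K) (hv : 0 < volume K)
    (v : Eu (Fin n) → ℝ) (h : Continuous v) : Integrable v (un K) := by
  unfold un
  exact (h.continuousOn.integrableOn_compact hc).smul_measure (ENNReal.inv_ne_top.2 hv.ne')

theorem EV_mono {K : Set (Eu (Fin n))} (hc : IsCompact K) (hv : 0 < volume K)
    (u v : Eu (Fin n) → ℝ) (hu : Continuous u) (hvc : Continuous v) (h : ∀ x ∈ K, u x ≤ v x) :
    EV K u ≤ EV K v := by
  unfold EV
  refine div_le_div_of_nonneg_right ?_ ENNReal.toReal_nonneg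
  exact setIntegral_mono_on (hu.continuousOn.integrableOn_compact hc)
    (hvc.continuousOn.integrableOn_compact hc) hc.measurableSet h

theorem EV_const {K : Set (Eu (Fin n))} (hc : IsCompact K) (hv : 0 < volume K) (r : ℝ) :
    EV K (fun _ => r) = r := by
  have := un_prob hc hv
  rw [← un_int]
  simp

theorem EV_mul (K : Set (Eu (Fin n))) (r : ℝ) (v : Eu (Fin n) → ℝ) :
    EV K (fun x => r * v x) = r * EV K v := by
  unfold EV
  rw [integral_const_mul, mul_div_assoc]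

theorem VV_mul (K : Set (Eu (Fin n))) (r : ℝ) (v : Eu (Fin n) → ℝ) :
    VV K (fun x => r * v x) = r ^ 2 * VV K v := by
  unfold VV
  rw [EV_mul]
  have : (fun x => (r * v x) ^ 2) = fun x => r ^ 2 * v x ^ 2 := by
    funext x
    ring
  rw [this, EV_mul]
  ring

theorem var_eq {K : Set (Eu (Fin n))} (hc : IsCompact K) (hv : 0 < volume K)
    (v : Eu (Fin n) → ℝ) (h : Continuous v) : ProbabilityTheory.variance v (un K) = VV K v := by
  have := un_prob hc hv
  have hL2 : MemLp v 2 (un K) := by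
    rw [memLp_two_iff_integrable_sq h.aestronglyMeasurable]
    exact un_integrable hc hv _ (h.pow 2)
  rw [ProbabilityTheory.variance_eq_sub hL2]
  unfold VV
  rw [← un_int, ← un_int]
  rfl

/-- **Cheeger's inequality** on order polytopes, all measurable sets -/
theorem sets (h : S_ALL) (hg : S_GEO) (R : Fin n → Fin n → Prop)
    (hi : (interior (OE R)).Nonempty) (S : Set (Eu (Fin n))) (hS : MeasurableSet S) :
    ENNReal.ofReal (Real.pi / 8) * min (un (OE R) S) (1 - un (OE R) S) ≤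
      liminf (fun ε : ℝ =>
        (un (OE R) (Metric.thickening ε S) - un (OE R) S) / ENNReal.ofReal ε) (𝓝[>] 0) := by
  have hv := vpos hi
  obtain ⟨hc, hco, -⟩ := hg n R
  have hprob := un_prob hc hv
  have hpi : 0 < Real.pi := Real.pi_pos
  have key := h n R hv (un (OE R)) rfl S hS
  obtain ⟨I, hI⟩ : ∃ I : ℝ≥0∞, I = liminf (fun ε : ℝ =>
    (un (OE R) (Metric.thickening ε S) - un (OE R) S) / ENNReal.ofReal ε) (𝓝[>] 0) := ⟨_, rfl⟩
  rw [← hI] at key ⊢
  obtain ⟨a, ha⟩ : ∃ a : ℝ≥0∞, a = un (OE R) S := ⟨_, rfl⟩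
  rw [← ha] at key ⊢
  have ha1 : a ≤ 1 := by rw [ha]; exact prob_le_one
  have hadd : a + (1 - a) = 1 := add_tsub_cancel_of_le ha1
  have hmin : min a (1 - a) ≤ 2 * (a * (1 - a)) := by
    rcases le_total a (1 - a) with h1 | h1
    · have h2 : 1 ≤ 2 * (1 - a) := by
        calc (1 : ℝ≥0∞) = a + (1 - a) := hadd.symm
          _ ≤ (1 - a) + (1 - a) := by gcongr
          _ = 2 * (1 - a) := (two_mul _).symm
      calc min a (1 - a) ≤ a * 1 := by rw [mul_one]; exact min_le_left _ _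
        _ ≤ a * (2 * (1 - a)) := by gcongr
        _ = _ := by ring
    · have h2 : 1 ≤ 2 * a := by
        calc (1 : ℝ≥0∞) = a + (1 - a) := hadd.symm
          _ ≤ a + a := by gcongr
          _ = 2 * a := (two_mul _).symm
      calc min a (1 - a) ≤ 1 * (1 - a) := by rw [one_mul]; exact min_le_right _ _
        _ ≤ 2 * a * (1 - a) := by gcongr
        _ = _ := by ring
  calc ENNReal.ofReal (Real.pi / 8) * min a (1 - a)
      ≤ ENNReal.ofReal (Real.pi / 8) * (2 * (a * (1 - a))) := by gcongr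
    _ ≤ ENNReal.ofReal (Real.pi / 8) * (2 * (ENNReal.ofReal (4 / Real.pi) * I)) := by gcongr
    _ = (ENNReal.ofReal (Real.pi / 8) * ENNReal.ofReal 2 * ENNReal.ofReal (4 / Real.pi)) * I := by
        rw [ENNReal.ofReal_ofNat]
        ring
    _ = I := by
        rw [← ENNReal.ofReal_mul (by positivity), ← ENNReal.ofReal_mul (by positivity)]
        have : Real.pi / 8 * 2 * (4 / Real.pi) = 1 := by
          field_simp
          norm_num
        rw [this, ENNReal.ofReal_one, one_mul]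

/-- the unit vector in the direction of `(1, ..., 1)` -/
noncomputable def th (n : ℕ) : Eu (Fin n) := WithLp.toLp 2 fun _ => (Real.sqrt n)⁻¹

theorem th_inner (x : Eu (Fin n)) : ⟪x, th n⟫_ℝ = (Real.sqrt n)⁻¹ * ∑ i, x i := by
  unfold th
  rw [PiLp.inner_apply, Finset.mul_sum]
  refine Finset.sum_congr rfl fun i _ => ?_
  simp

theorem th_norm (hn : 1 ≤ n) : ‖th n‖ = 1 := by
  have h0 : (0 : ℝ) < n := by exact_mod_cast hn
  have h1 : ‖th n‖ ^ 2 = 1 := by
    rw [EuclideanSpace.norm_sq_eq]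
    unfold th
    simp only [Real.norm_eq_abs, sq_abs, Finset.sum_const, Finset.card_univ, Fintype.card_fin,
      nsmul_eq_mul, inv_pow, Real.sq_sqrt h0.le]
    exact mul_inv_cancel₀ h0.ne'
  have h2 : (0 : ℝ) ≤ ‖th n‖ := norm_nonneg _
  nlinarith [sq_nonneg (‖th n‖ - 1)]

theorem cont_sum : Continuous fun x : Eu (Fin n) => ∑ i, x i :=
  continuous_finsetSum _ fun i _ => by fun_prop

/-- variance in the direction of `(1, ..., 1)` -/
theorem th_var (h : S_VS) (R : Fin n → Fin n → Prop) (hn : 1 ≤ n) (hv : 0 < volume (OE R)) :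
    VV (OE R) (fun x => ⟪x, th n⟫_ℝ) = 1 / 12 := by
  have h0 : (0 : ℝ) < n := by exact_mod_cast hn
  have h1 : (fun x : Eu (Fin n) => ⟪x, th n⟫_ℝ) = fun x => (Real.sqrt n)⁻¹ * ∑ i, x i :=
    funext th_inner
  rw [h1, VV_mul, (h n R hv).2, inv_pow, Real.sq_sqrt h0.le]
  field_simp

/-- the largest variance is at least `1/12` -/
theorem s_low (h : S_VS) (hg : S_GEO) (R : Fin n → Fin n → Prop) (hn : 1 ≤ n)
    (hv : 0 < volume (OE R)) (s : ℝ) (hs : ∀ θ : Eu (Fin n), ‖θ‖ = 1 →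
      ProbabilityTheory.variance (fun x => ⟪x, θ⟫_ℝ) (un (OE R)) ≤ s) : 1 / 12 ≤ s := by
  have h1 := hs (th n) (th_norm hn)
  rw [var_eq (hg n R).1 hv _ (by fun_prop), th_var h R hn hv] at h1
  exact h1

/-- covariance form -/
theorem cov_form (h : S_ALL) (h' : S_VS) (hg : S_GEO) (R : Fin n → Fin n → Prop) (hn : 1 ≤ n)
    (hi : (interior (OE R)).Nonempty) (s : ℝ) (hs0 : 0 < s)
    (hs : ∀ θ : Eu (Fin n), ‖θ‖ = 1 →
      ProbabilityTheory.variance (fun x => ⟪x, θ⟫_ℝ) (un (OE R)) ≤ s)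
    (S : Set (Eu (Fin n))) (hS : MeasurableSet S) :
    ENNReal.ofReal (1 / 9 / Real.sqrt s) * min (un (OE R) S) (un (OE R) Sᶜ) ≤
      liminf (fun ε : ℝ =>
        (un (OE R) (Metric.thickening ε S) - un (OE R) S) / ENNReal.ofReal ε) (𝓝[>] 0) := by
  have hv := vpos hi
  have hprob := un_prob (hg n R).1 hv
  refine le_trans ?_ (sets h hg R hi S hS)
  rw [prob_compl_eq_one_sub hS]
  have h1 := s_low h' hg R hn hv s hs
  have hpi : (3.14 : ℝ) < Real.pi := Real.pi_gt_d2
  have h2 : (1 / 3.4642 : ℝ) ≤ Real.sqrt s := by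
    refine Real.le_sqrt_of_sq_le ?_
    norm_num
    norm_num at h1
    linarith
  have h3 : 1 / 9 / Real.sqrt s ≤ Real.pi / 8 := by
    rw [div_le_iff₀ (by positivity)]
    have h4 : Real.pi / 8 * (1 / 3.4642) ≤ Real.pi / 8 * Real.sqrt s := by gcongr
    refine le_trans ?_ h4
    norm_num
    linarith
  exact mul_le_mul' (ENNReal.ofReal_le_ofReal h3) le_rfl

/-- Poincare inequality, covariance form -/
theorem poi_form (h : S_POBE) (h' : S_VS) (hg : S_GEO) (R : Fin n → Fin n → Prop) (hn : 1 ≤ n)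
    (hi : (interior (OE R)).Nonempty) (f : Eu (Fin n) → ℝ) (hf : ContDiff ℝ 1 f) :
    ProbabilityTheory.variance f (un (OE R)) ≤
      1 / Real.pi ^ 2 * ∫ x, ‖fderiv ℝ f x‖ ^ 2 ∂(un (OE R)) ∧
    ∀ s : ℝ, (∀ θ : Eu (Fin n), ‖θ‖ = 1 →
      ProbabilityTheory.variance (fun x => ⟪x, θ⟫_ℝ) (un (OE R)) ≤ s) →
    ProbabilityTheory.variance f (un (OE R)) ≤
      12 / Real.pi ^ 2 * s * ∫ x, ‖fderiv ℝ f x‖ ^ 2 ∂(un (OE R)) := by
  have hv := vpos hi
  have h1 : ProbabilityTheory.variance f (un (OE R)) ≤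
      1 / Real.pi ^ 2 * ∫ x, ‖fderiv ℝ f x‖ ^ 2 ∂(un (OE R)) := by
    rw [var_eq (hg n R).1 hv f hf.continuous, un_int]
    exact h n R hv f hf
  refine ⟨h1, fun s hs => h1.trans ?_⟩
  have h2 := s_low h' hg R hn hv s hs
  have h3 : 0 ≤ ∫ x, ‖fderiv ℝ f x‖ ^ 2 ∂(un (OE R)) := integral_nonneg fun x => by positivity
  refine mul_le_mul_of_nonneg_right ?_ h3
  have h4 : 1 ≤ 12 * s := by linarith
  calc 1 / Real.pi ^ 2 ≤ 12 * s / Real.pi ^ 2 := by gcongr
    _ = _ := by ring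

/-- halfspace form -/
theorem half_form (h : S_ALL) (h' : S_VS) (hg : S_GEO) : ∃ c : ℝ, 0 < c ∧
    ∀ (n : ℕ) (R : Fin n → Fin n → Prop), 1 ≤ n → (interior (OE R)).Nonempty → ∀ t : ℝ≥0∞,
    (∀ b : ℝ, t * min (un (OE R) {x | ⟪th n, x⟫_ℝ ≤ b}) (1 - un (OE R) {x | ⟪th n, x⟫_ℝ ≤ b}) ≤
      liminf (fun ε : ℝ => (un (OE R) (Metric.thickening ε {x | ⟪th n, x⟫_ℝ ≤ b}) -
        un (OE R) {x | ⟪th n, x⟫_ℝ ≤ b}) / ENNReal.ofReal ε) (𝓝[>] 0)) →
    ∀ S : Set (Eu (Fin n)), MeasurableSet S →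
      ENNReal.ofReal c * t * min (un (OE R) S) (1 - un (OE R) S) ≤
      liminf (fun ε : ℝ =>
        (un (OE R) (Metric.thickening ε S) - un (OE R) S) / ENNReal.ofReal ε) (𝓝[>] 0) := by
  obtain ⟨C, hC, HH⟩ := Pool.Agent.Y211.FF.half
  have hpi : 0 < Real.pi := Real.pi_pos
  refine ⟨Real.pi / 8 / Real.sqrt (12 * C), by positivity, ?_⟩
  intro n R hn hi t ht S hS
  have hv := vpos hi
  obtain ⟨hc, hco, -⟩ := hg n R
  have hprob := un_prob hc hv
  refine le_trans ?_ (sets h hg R hi S hS)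
  obtain ⟨m, hm⟩ := HH (Fin n) (OE R) hc hco hi (un (OE R)) rfl (th n) t (th_norm hn) ht
  have hcont : Continuous fun x : Eu (Fin n) => (⟪th n, x⟫_ℝ - m) ^ 2 := by fun_prop
  rw [← ofReal_integral_eq_lintegral_ofReal (un_integrable hc hv _ hcont)
    (Eventually.of_forall fun x => sq_nonneg _)] at hm
  have h3 : (1 / 12 : ℝ) ≤ ∫ x, (⟪th n, x⟫_ℝ - m) ^ 2 ∂(un (OE R)) := by
    have h4 : ProbabilityTheory.variance (fun x => ⟪x, th n⟫_ℝ - m) (un (OE R)) =
        ProbabilityTheory.variance (fun x => ⟪x, th n⟫_ℝ) (un (OE R)) :=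
      ProbabilityTheory.variance_sub_const (by fun_prop) m
    rw [var_eq hc hv _ (by fun_prop), var_eq hc hv _ (by fun_prop), th_var h' R hn hv] at h4
    rw [← h4, ← var_eq hc hv _ (by fun_prop)]
    refine (ProbabilityTheory.variance_le_expectation_sq (by fun_prop)).trans (le_of_eq ?_)
    refine integral_congr_ae (Eventually.of_forall fun x => ?_)
    simp only [Pi.pow_apply]
    rw [real_inner_comm]
  have h5 : t ^ 2 * ENNReal.ofReal (1 / 12) ≤ ENNReal.ofReal C :=
    (mul_le_mul_right (ENNReal.ofReal_le_ofReal h3) _).trans hm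
  have ht2 : t ^ 2 ≤ ENNReal.ofReal (12 * C) := by
    have e : ENNReal.ofReal (12 * C) = ENNReal.ofReal C * ENNReal.ofReal 12 := by
      rw [← ENNReal.ofReal_mul hC.le, mul_comm]
    rw [e]
    calc t ^ 2 = t ^ 2 * ENNReal.ofReal (1 / 12) * ENNReal.ofReal 12 := by
          rw [mul_assoc, ← ENNReal.ofReal_mul (by norm_num)]
          norm_num
      _ ≤ _ := mul_le_mul_left h5 _
  have ht3 : t ≤ ENNReal.ofReal (Real.sqrt (12 * C)) := by
    have e : ENNReal.ofReal (12 * C) = ENNReal.ofReal (Real.sqrt (12 * C)) ^ 2 := by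
      rw [← ENNReal.ofReal_pow (Real.sqrt_nonneg _), Real.sq_sqrt (by positivity)]
    rw [e] at ht2
    exact (ENNReal.pow_le_pow_left_iff two_ne_zero).1 ht2
  have h6 : ENNReal.ofReal (Real.pi / 8 / Real.sqrt (12 * C)) * t ≤ ENNReal.ofReal (Real.pi / 8) := by
    calc _ ≤ ENNReal.ofReal (Real.pi / 8 / Real.sqrt (12 * C)) *
          ENNReal.ofReal (Real.sqrt (12 * C)) := mul_le_mul_right ht3 _
      _ = ENNReal.ofReal (Real.pi / 8) := by
          have h0 : 0 < Real.sqrt (12 * C) := by positivity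
          rw [← ENNReal.ofReal_mul (by positivity), div_mul_cancel₀ _ h0.ne']
  exact mul_le_mul' h6 le_rfl

end Pool.Agent.R972.OP
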