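import Pool.Agent.R972.OP.Stm

/-! OP3-WCH: lattice weights of Hardy type (explicit form). -/

set_option autoImplicit false

namespace Pool.Agent.R972.OP

open MeasureTheory Set Filter Topology

namespace WCHaux

theorem key (q d r a b : ℝ) (hq : 1 ≤ q) (hr : 0 ≤ r) (hr2 : r ^ 2 = q) (ha : 0 ≤ a)
    (ha2 : a ^ 2 = q - 1 + d) (hb : 0 ≤ b) (hb2 : b ^ 2 = q - 1 - d) :
    4 * q + d ^ 2 ≤ 4 * r ^ 3 * (2 * r - a - b) := by
  have ht0 : 0 ≤ a * b := mul_nonneg ha hb
  have ht1 : a * b ≤ q - 1 := by nlinarith [sq_nonneg (a - b)]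
  have ht2 : d ^ 2 = (q - 1 - a * b) * (q - 1 + a * b) := by
    have : (a * b) ^ 2 = (q - 1 + d) * (q - 1 - d) := by rw [mul_pow, ha2, hb2]
    nlinarith
  have hd : d ^ 2 ≤ 2 * q * (q - 1 - a * b) := by
    rw [ht2]; nlinarith
  have hs : a + b ≤ 2 * r := by
    have : (a + b) ^ 2 ≤ (2 * r) ^ 2 := by nlinarith
    exact (pow_le_pow_iff_left₀ (by positivity) (by positivity) two_ne_zero).1 this
  have h1 : 2 * (q + 1 - a * b) ≤ (2 * r - a - b) * (4 * r) := by
    have e : (2 * r - a - b) * (2 * r + (a + b)) = 2 * (q + 1 - a * b) := by nlinarith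
    rw [← e]
    apply mul_le_mul_of_nonneg_left _ (by linarith)
    linarith
  have h2 : 2 * (q + 1 - a * b) * r ^ 2 ≤ (2 * r - a - b) * (4 * r) * r ^ 2 :=
    mul_le_mul_of_nonneg_right h1 (by positivity)
  rw [hr2] at h2
  have e2 : 4 * r ^ 3 * (2 * r - a - b) = (2 * r - a - b) * (4 * r) * q := by
    rw [← hr2]; ring
  rw [e2]
  nlinarith

/-- `√(k (N - k))` -/
noncomputable def rr (N k : ℕ) : ℝ := Real.sqrt ((k : ℝ) * ((N : ℝ) - k))

theorem rr_nonneg (N k : ℕ) : 0 ≤ rr N k := Real.sqrt_nonneg _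

theorem rr_sq (N k : ℕ) (h : k ≤ N) : rr N k ^ 2 = (k : ℝ) * ((N : ℝ) - k) := by
  unfold rr
  have : (k : ℝ) ≤ N := by exact_mod_cast h
  rw [Real.sq_sqrt (mul_nonneg (by positivity) (by linarith))]

theorem rr_zero (N : ℕ) : rr N 0 = 0 := by unfold rr; simp

theorem rr_self (N : ℕ) : rr N N = 0 := by unfold rr; simp

theorem rr_key (N k : ℕ) (h : k + 1 < N) :
    (N : ℝ) ^ 2 ≤ 4 * rr N (k + 1) ^ 3 * (2 * rr N (k + 1) - rr N (k + 2) - rr N k) := by
  have h' : (k : ℝ) + 1 + 1 ≤ N := by exact_mod_cast h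
  have hk : (0 : ℝ) ≤ k := by positivity
  have e := key (((k : ℝ) + 1) * ((N : ℝ) - 1 - k)) ((N : ℝ) - 2 - 2 * k) (rr N (k + 1))
    (rr N (k + 2)) (rr N k) (by nlinarith) (rr_nonneg _ _)
    (by rw [rr_sq N _ (by omega)]; push_cast; ring) (rr_nonneg _ _)
    (by rw [rr_sq N _ (by omega)]; push_cast; ring) (rr_nonneg _ _)
    (by rw [rr_sq N _ (by omega)]; ring)
  have e2 : (N : ℝ) ^ 2 = 4 * (((k : ℝ) + 1) * ((N : ℝ) - 1 - k)) + ((N : ℝ) - 2 - 2 * k) ^ 2 := by
    ring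
  rw [e2]
  exact e

theorem rr_pos (N k : ℕ) (h : k + 1 < N) : 0 < rr N (k + 1) := by
  unfold rr
  apply Real.sqrt_pos.2
  have h' : (k : ℝ) + 1 + 1 ≤ N := by exact_mod_cast h
  push_cast
  apply mul_pos <;> nlinarith [(Nat.cast_nonneg k : (0 : ℝ) ≤ k)]

theorem D_pos (N k : ℕ) (h : k + 1 < N) :
    0 < 2 * rr N (k + 1) - rr N (k + 2) - rr N k := by
  have h1 := rr_key N k h
  have hN : (0 : ℝ) < (N : ℝ) ^ 2 := by
    have : 0 < N := by omega
    positivity
  have hr := rr_pos N k h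
  by_contra hcon
  push Not at hcon
  have : 4 * rr N (k + 1) ^ 3 * (2 * rr N (k + 1) - rr N (k + 2) - rr N k) ≤ 0 :=
    mul_nonpos_of_nonneg_of_nonpos (by positivity) hcon
  linarith

theorem main : ∀ N : ℕ, 0 < N → ∃ (W c : ℕ → ℝ) (m : ℝ), WC N W c m ∧
    ∀ k, k + 1 < N → c k ≤ 4 * (((k : ℝ) + 1) * ((N : ℝ) - 1 - k)) ^ 2 / (N : ℝ) ^ 2 := by
  intro N hN
  refine ⟨fun k => rr N k - rr N (k + 1),
    fun k => rr N (k + 1) / (2 * rr N (k + 1) - rr N (k + 2) - rr N k), 0, ⟨?_, ?_, ?_⟩, ?_⟩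
  · intro k hk
    have := D_pos N k hk
    show rr N k - rr N (k + 1) < rr N (k + 1) - rr N (k + 2)
    linarith
  · intro k hk
    exact div_nonneg (rr_nonneg _ _) (D_pos N k hk).le
  · intro j hj
    have h1 : (if j + 1 < N then rr N (j + 1) / (2 * rr N (j + 1) - rr N (j + 2) - rr N j) *
        (rr N (j + 1) - rr N (j + 1 + 1) - (rr N j - rr N (j + 1))) else 0) = rr N (j + 1) := by
      split_ifs with h
      · have hD := (D_pos N j h).ne'
        have e : rr N (j + 1) - rr N (j + 1 + 1) - (rr N j - rr N (j + 1)) =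
            2 * rr N (j + 1) - rr N (j + 2) - rr N j := by
          have : j + 1 + 1 = j + 2 := rfl
          rw [this]; ring
        rw [e, div_mul_cancel₀ _ hD]
      · have : j + 1 = N := by omega
        rw [this, rr_self]
    have h2 : (if 0 < j then rr N (j - 1 + 1) / (2 * rr N (j - 1 + 1) - rr N (j - 1 + 2) -
        rr N (j - 1)) * (rr N j - rr N (j + 1) - (rr N (j - 1) - rr N (j - 1 + 1))) else 0) =
        rr N j := by
      rcases j with _ | i
      · simp [rr_zero]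
      · have hD := (D_pos N i hj).ne'
        simp only [Nat.succ_pos, if_true, Nat.add_sub_cancel]
        have e : rr N (i + 1) - rr N (i + 1 + 1) - (rr N i - rr N (i + 1)) =
            2 * rr N (i + 1) - rr N (i + 2) - rr N i := by
          have : i + 1 + 1 = i + 2 := rfl
          rw [this]; ring
        rw [e, div_mul_cancel₀ _ hD]
    refine (congrArg₂ (fun x y : ℝ => x - y) h1 h2).trans ?_
    show rr N (j + 1) - rr N j = 0 - (rr N j - rr N (j + 1))
    ring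
  · intro k hk
    have hD := D_pos N k hk
    have h1 := rr_key N k hk
    have hr := rr_pos N k hk
    have hNp : (0 : ℝ) < (N : ℝ) ^ 2 := by positivity
    have hq : ((k : ℝ) + 1) * ((N : ℝ) - 1 - k) = rr N (k + 1) ^ 2 := by
      rw [rr_sq N _ (by omega)]; push_cast; ring
    show rr N (k + 1) / (2 * rr N (k + 1) - rr N (k + 2) - rr N k) ≤
      4 * (((k : ℝ) + 1) * ((N : ℝ) - 1 - k)) ^ 2 / (N : ℝ) ^ 2
    rw [hq, div_le_div_iff₀ hD hNp]
    calc rr N (k + 1) * (N : ℝ) ^ 2 ≤ rr N (k + 1) *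
        (4 * rr N (k + 1) ^ 3 * (2 * rr N (k + 1) - rr N (k + 2) - rr N k)) :=
          mul_le_mul_of_nonneg_left h1 hr.le
      _ = 4 * (rr N (k + 1) ^ 2) ^ 2 * (2 * rr N (k + 1) - rr N (k + 2) - rr N k) := by ring

end WCHaux

end Pool.Agent.R972.OP
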