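import Pool.Agent.R972.OP.Stm4
import Pool.Agent.R972.OP.WchA

/-! OP3-WCH. -/

set_option autoImplicit false

namespace Pool.Agent.R972.OP

theorem t_WCH : S_WCH := WCHaux.main

end Pool.Agent.R972.OP
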