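import Pool.Agent.R972.OP.All2
import Pool.Agent.R972.OP.Fin
import Pool.Agent.R972.OP.Stm4
import Pool.Agent.R972.OP.Wch
import Pool.Agent.R650.OP.Uph
import Pool.Agent.R455.OP3.Pgd
import Pool.Agent.R281.OP3.Rid
import Pool.Agent.R46.OP3_CHD
import Pool.Agent.R757.OP.MKA
import Pool.Agent.R515.OP.Poh
import Pool.Agent.R294.OP3.Tru
import Pool.Agent.R787.Igd
import Pool.Agent.R62.OPL.Ilc
import Pool.Agent.R766.OP3.Smg
import Pool.Agent.R394.OP3.Kls

/-!
# Log-concave samples conditioned on a partial order: assembly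

Parts by helpers 422, 650, 515, 294, 455, 281, 46, 787, 62, 757, 766, 394.
-/

set_option autoImplicit false

namespace Pool.Agent.R972.OP

theorem poh_all : S_POH := Pool.Agent.R515.OP.Poh.poh lat_all Pool.Agent.R364.OP.rs
  Pool.Agent.R372.OP.ADJ.main pieceUPC Pool.Agent.R650.OP.uph t_WCH

theorem pgd_all : S_PGD := Pool.Agent.R455.OP3.pgd (Pool.Agent.R294.OP3.tru poh_all)

theorem igd_all : S_IGD := Pool.Agent.R787.IGD.igd pgd_all Pool.Agent.R281.OP3.t_RID
  (Pool.Agent.R46.OP3CHD.chd Pool.Agent.R656.OP2.t_corl)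

theorem ilc_all : S_ILC := Pool.Agent.R62.OPL.ilc igd_all

theorem vsg_all : S_VSG := Pool.Agent.R766.OP3.vsg Pool.Agent.R766.OP3.smg

theorem kls3_all : S_KLS3 := Pool.Agent.R394.OP3.kls3 ilc_all Pool.Agent.R757.OP.mka vsg_all

end Pool.Agent.R972.OP
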