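import Pool.Agent.R972.OP.Stm

/-!
# Order polytopes: the first Neumann eigenvalue, statements (project OP)
-/

set_option autoImplicit false

namespace Pool.Agent.R972.OP

open MeasureTheory Set Filter Topology

/-- the constant rate for `W_k = -cos (π (k + 1/2) / N)` -/
noncomputable def cb (N : ℕ) : ℝ := 1 / (4 * Real.sin (Real.pi / (2 * N)) ^ 2)

/-- OP-WCB: the cosine satisfies the identity with the constant rate -/
def S_WCB : Prop := (∀ N : ℕ, 0 < N →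
    WC N (fun k => -Real.cos (Real.pi * ((k : ℝ) + 1 / 2) / N)) (fun _ => cb N) 0) ∧
  Tendsto (fun N : ℕ => cb N / (N : ℝ) ^ 2) atTop (𝓝 (1 / Real.pi ^ 2))

/-- OP-UPB: asymptotics with the constant rate -/
def S_UPB : Prop := ∀ (n : ℕ) (f : (Fin n → ℝ) → ℝ), ContDiff ℝ 1 f →
  ∃ (err : ℕ → ℝ) (C : ℝ), Tendsto err atTop (𝓝 0) ∧ 0 ≤ C ∧
  ∀ (N : ℕ) (g : Fin n → ℕ), 0 < N → (∀ a, g a < N) → Function.Injective g →
  (∑ a, (if g a + 1 < N then
      cb N * (f (lp N (Function.update g a (g a + 1))) - f (lp N g)) ^ 2 else 0) +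
    ∑ a, (if 0 < g a then
      cb N * (f (lp N (Function.update g a (g a - 1))) - f (lp N g)) ^ 2 else 0) ≤
    2 / Real.pi ^ 2 * ∑ a, pd f a (lp N g) ^ 2 + err N) ∧
  ∀ a b, g b = g a + 1 →
    cb N * (f (lp N (mv (g a) (g a + 1) g)) - f (lp N g)) ^ 2 ≤ C

/-- OP-POB: the sharp Poincare inequality on order polytopes -/
def S_POB : Prop := ∀ (n : ℕ) (R : Fin n → Fin n → Prop), (∀ a, ¬ R a a) →
  ∀ f : (Fin n → ℝ) → ℝ, ContDiff ℝ 1 f →
  (volume (OPp R)).toReal * (∫ x in OPp R, f x ^ 2) - (∫ x in OPp R, f x) ^ 2 ≤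
    (volume (OPp R)).toReal * (1 / Real.pi ^ 2 * ∫ x in OPp R, ∑ a, pd f a x ^ 2)

end Pool.Agent.R972.OP
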