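import Pool.Agent.R972.OP.StmE2

/-!
# All levels, and the conductance of the simplex walk: statements (project OP2)
-/

set_option autoImplicit false

namespace Pool.Agent.R972.OP

open MeasureTheory Set Filter Topology
open scoped ENNReal InnerProductSpace
open Pool.Agent.W695.KH (Eu EU EV VV Sm Pot Uu)

/-- OP2-CORE: `S_core` with the weak Poincare inequality for functions of bounded gradient only -/
def S_CORL : Prop := ∀ (κ : Type) [Fintype κ] (U : Eu κ → ℝ) (b : Eu κ → Eu κ) (A : ℝ),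
  Pot U b A → EU U (fun _ => 1) = 1 → ∀ δ c : ℝ, 0 < δ → 0 < c →
  ∀ (f : Eu κ → ℝ) (L M : ℝ), Sm f L M →
  (∀ v : Eu κ → ℝ, ContDiff ℝ 1 v → (∀ x, |v x| ≤ 1) →
    (∀ x, ‖fderiv ℝ v x‖ ≤ max (max L M) 1) →
    δ ≤ EU U (fun x => v x ^ 2) - EU U v ^ 2 → c ≤ EU U fun x => ‖fderiv ℝ v x‖ ^ 2) →
  EU U f = 0 → 4 * δ < EU U (fun x => f x ^ 2) →
  EU U (fun x => f x ^ 2) ≤ 4 / c * (EU U fun x => ‖fderiv ℝ f x‖) ^ 2

/-- OP2-BODY: from Poincare to the `L¹` inequality at all levels, for bodies -/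
def S_BODL : Prop := ∀ (κ : Type) [Fintype κ] (D : Set (Eu κ)), IsCompact D → Convex ℝ D →
  0 < volume D → ∀ Cp : ℝ, 0 < Cp →
  (∀ v : Eu κ → ℝ, ContDiff ℝ 1 v → VV D v ≤ Cp * EV D fun x => ‖fderiv ℝ v x‖ ^ 2) →
  ∀ (f : Eu κ → ℝ) (L M : ℝ), Sm f L M → (∀ x, |f x| ≤ 1 / 2) →
  VV D f ≤ 4 * Real.sqrt Cp * EV D fun x => ‖fderiv ℝ f x‖

section

variable {n : ℕ}

/-- the simplex of the permutation `s` -/
def Sx (s : Equiv.Perm (Fin n)) : Set (Fin n → ℝ) :=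
  {x | (∀ i, 0 ≤ x i ∧ x i ≤ 1) ∧ Monotone fun i => x (s i)}

/-- `E` is the set of linear extensions of `r` -/
def IsLE (r : Fin n → Fin n → Prop) (E : Finset (Equiv.Perm (Fin n))) : Prop :=
  ∀ s : Equiv.Perm (Fin n), s ∈ E ↔ ∀ i j : Fin n, r (s i) (s j) → i ≤ j

/-- union of simplices -/
def US (T : Finset (Equiv.Perm (Fin n))) : Set (Fin n → ℝ) := {x | ∃ s ∈ T, x ∈ Sx s}

open Classical in
/-- number of pairs `(s, t)`, `s ∈ A`, `t ∈ E \ A`, which differ by an adjacent transposition -/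
noncomputable def eb (A E : Finset (Equiv.Perm (Fin n))) : ℕ :=
  ((A ×ˢ (E \ A)).filter (fun p : Equiv.Perm (Fin n) × Equiv.Perm (Fin n) =>
    ∃ i j : Fin n, j.val = i.val + 1 ∧ p.2 = p.1 * Equiv.swap i j)).card

end

/-- OP2-VOL: volumes -/
def S_VOL : Prop := ∀ (n : ℕ) (r : Fin n → Fin n → Prop) (E : Finset (Equiv.Perm (Fin n))),
  IsLE r E → (∀ T : Finset (Equiv.Perm (Fin n)), T ⊆ E → US T ⊆ OPp r ∧
    volume (US T) = ENNReal.ofReal ((T.card : ℝ) / n.factorial)) ∧ volume (OPp r \ US E) = 0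

/-- OP2-GAP1: volume of a simplex near a facet -/
def S_GAP1 : Prop := ∀ (n : ℕ) (s : Equiv.Perm (Fin n)) (k l : Fin n), l.val = k.val + 1 →
  ∀ d : ℝ, 0 ≤ d → volume {x ∈ Sx s | x (s l) - x (s k) ≤ d} ≤
    ENNReal.ofReal (d / (n - 1).factorial)

/-- OP2-GAP2: volume of a simplex near two facets -/
def S_GAP2 : Prop := ∀ (n : ℕ) (s : Equiv.Perm (Fin n)) (k l k' l' : Fin n),
  l.val = k.val + 1 → l'.val = k'.val + 1 → k ≠ k' → ∀ d : ℝ, 0 ≤ d →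
  volume {x ∈ Sx s | x (s l) - x (s k) ≤ d ∧ x (s l') - x (s k') ≤ d} ≤ ENNReal.ofReal (d ^ 2)

/-- OP2-CMB: points of a simplex near another simplex -/
def S_CMB : Prop := ∀ (n : ℕ) (s t : Equiv.Perm (Fin n)), s ≠ t → ∀ (x y : Fin n → ℝ) (e : ℝ),
  x ∈ Sx s → y ∈ Sx t → (∀ i, |x i - y i| ≤ e) →
  (∃ k l : Fin n, l.val = k.val + 1 ∧ t = s * Equiv.swap k l ∧ x (s l) - x (s k) ≤ 2 * e) ∨
  ∃ k l k' l' : Fin n, l.val = k.val + 1 ∧ l'.val = k'.val + 1 ∧ k ≠ k' ∧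
    x (s l) - x (s k) ≤ 2 * e ∧ x (s l') - x (s k') ≤ 2 * e

/-- OP2-MKC: neighbourhoods of a union of simplices -/
def S_MKC : Prop := ∀ (n : ℕ) (r : Fin n → Fin n → Prop) (E A : Finset (Equiv.Perm (Fin n))),
  IsLE r E → A ⊆ E → ∀ e : ℝ, 0 < e →
  volume {x ∈ OPp r | ∃ y ∈ US (E \ A), ∀ i, |x i - y i| ≤ e} ≤ volume (US (E \ A)) +
    ENNReal.ofReal ((eb A E : ℝ) * (2 * e) / (n - 1).factorial + A.card * n ^ 2 * (2 * e) ^ 2)

/-- OP2-ALL: Cheeger's inequality on order polytopes at all levels -/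
def S_ALL : Prop := ∀ (n : ℕ) (R : Fin n → Fin n → Prop), 0 < volume (OE R) →
  ∀ μ : Measure (Eu (Fin n)), μ = (volume (OE R))⁻¹ • volume.restrict (OE R) →
  ∀ S : Set (Eu (Fin n)), MeasurableSet S → μ S * (1 - μ S) ≤ ENNReal.ofReal (4 / Real.pi) *
    liminf (fun ε : ℝ => (μ (Metric.thickening ε S) - μ S) / ENNReal.ofReal ε) (𝓝[>] 0)

/-- OP2-FIN: the discrete inequality -/
def S_FIN : Prop := ∀ (n : ℕ) (r : Fin n → Fin n → Prop),
  (∀ a b, r a b → r b a → a = b) → (∀ a b d, r a b → r b d → r a d) →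
  ∀ E A : Finset (Equiv.Perm (Fin n)), IsLE r E → A ⊆ E → A.Nonempty → 2 * A.card ≤ E.card →
  1 / 6 * (A.card : ℝ) ≤ (n : ℝ) * (eb A E : ℝ)

end Pool.Agent.R972.OP
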