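import Pool.Agent.R972.OP.Stm
import Pool.Agent.W695.KH.Defs

/-!
# Order polytopes in Euclidean space: statements (project OP)
-/

set_option autoImplicit false

namespace Pool.Agent.R972.OP

open MeasureTheory Set Filter Topology
open scoped ENNReal InnerProductSpace
open Pool.Agent.W695.KH (Eu EV VV)

/-- order polytope in Euclidean space -/
def OE {n : ℕ} (R : Fin n → Fin n → Prop) : Set (Eu (Fin n)) :=
  {x | (∀ i, 0 ≤ x i ∧ x i ≤ 1) ∧ ∀ i j, R i j → x i ≤ x j}

/-- OP-TR: transfer -/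
def S_TR : Prop := ∀ (n : ℕ) (R : Fin n → Fin n → Prop), volume (OE R) = volume (OPp R) ∧
  ∀ G : Eu (Fin n) → ℝ, ∫ x in OE R, G x = ∫ x in OPp R, G (WithLp.toLp 2 x)

/-- OP-GEO: compact, convex, with interior points in the case of a partial order -/
def S_GEO : Prop := ∀ (n : ℕ) (R : Fin n → Fin n → Prop), IsCompact (OE R) ∧ Convex ℝ (OE R) ∧
  ((∀ a b c, R a b → R b c → R a c) → (∀ a b, R a b → R b a → a = b) →
    (interior (OE R)).Nonempty)

/-- OP-POIE: Poincare inequality -/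
def S_POIE : Prop := ∀ (n : ℕ) (R : Fin n → Fin n → Prop), 0 < volume (OE R) →
  ∀ f : Eu (Fin n) → ℝ, ContDiff ℝ 1 f → VV (OE R) f ≤ 1 / 2 * EV (OE R) fun x =>
    ∑ i, x i * (1 - x i) * fderiv ℝ f x (EuclideanSpace.single i 1) ^ 2

/-- OP-VS: variance of the sum of the coordinates -/
def S_VS : Prop := ∀ (n : ℕ) (R : Fin n → Fin n → Prop), 0 < volume (OE R) →
  EV (OE R) (fun x => ∑ i, x i) = (n : ℝ) / 2 ∧ VV (OE R) (fun x => ∑ i, x i) = (n : ℝ) / 12

end Pool.Agent.R972.OP
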