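import Pool.Agent.R972.OP.StmE
import Pool.Agent.R972.OP.Stm2

/-!
# Order polytopes in Euclidean space: the sharp Poincare inequality, statement (project OP)
-/

set_option autoImplicit false

namespace Pool.Agent.R972.OP

open MeasureTheory Set Filter Topology
open scoped ENNReal InnerProductSpace
open Pool.Agent.W695.KH (Eu EV VV)

/-- OP-POBE: the sharp Poincare inequality -/
def S_POBE : Prop := ∀ (n : ℕ) (R : Fin n → Fin n → Prop), 0 < volume (OE R) →
  ∀ f : Eu (Fin n) → ℝ, ContDiff ℝ 1 f →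
  VV (OE R) f ≤ 1 / Real.pi ^ 2 * EV (OE R) fun x => ‖fderiv ℝ f x‖ ^ 2

end Pool.Agent.R972.OP
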